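import Pool.Agent.W854.HW.Stmts

/-!
# Doob's `L²` inequality for continuous martingales (part DOOB of project HW)
-/

set_option autoImplicit false

open MeasureTheory ProbabilityTheory Filter Topology Finset Set
open scoped NNReal ENNReal

noncomputable section

namespace Pool.Agent.W250.HWDOOB

open Pool.Agent.W854.HW

variable {Ω : Type} {mΩ : MeasurableSpace Ω} {P : Measure Ω} [IsProbabilityMeasure P]
  {F : Filtration ℝ≥0 mΩ} {D : ℝ≥0 → Ω → ℝ}

lemma integral_mul_mart (hM : Martingale D F P) {s t : ℝ≥0} (hst : s ≤ t) {G : Ω → ℝ}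
    (hG : StronglyMeasurable[F s] G) (hGi : Integrable (G * D t) P) :
    ∫ ω, G ω * D t ω ∂P = ∫ ω, G ω * D s ω ∂P := by
  have h1 : P[(G * D t) | F s] =ᵐ[P] G * P[D t | F s] :=
    condExp_mul_of_stronglyMeasurable_left hG hGi (hM.integrable t)
  have h2 : P[D t | F s] =ᵐ[P] D s := hM.condExp_ae_eq hst
  calc ∫ ω, G ω * D t ω ∂P = ∫ ω, (P[(G * D t) | F s]) ω ∂P := (integral_condExp (F.le s)).symm
   _ = _ := integral_congr_ae (by
      filter_upwards [h1, h2] with ω a b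
      rw [a, Pi.mul_apply, b])

/-- running maximum -/
def rmax (D : ℝ≥0 → Ω → ℝ) (τ : ℕ → ℝ≥0) : ℕ → Ω → ℝ
  | 0 => fun ω => |D (τ 0) ω|
  | k + 1 => fun ω => max |D (τ (k + 1)) ω| (rmax D τ k ω)

lemma le_rmax (D : ℝ≥0 → Ω → ℝ) (τ : ℕ → ℝ≥0) (ω : Ω) (k : ℕ) :
    ∀ j ≤ k, |D (τ j) ω| ≤ rmax D τ k ω := by
  induction k with
  | zero => intro j hj; obtain rfl : j = 0 := by omega
            exact le_refl _
  | succ k ih =>
    intro j hj
    rcases Nat.lt_or_ge j (k + 1) with h | h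
    · exact (ih j (by omega)).trans (le_max_right _ _)
    · obtain rfl : j = k + 1 := by omega
      exact le_max_left _ _

lemma rmax_le (D : ℝ≥0 → Ω → ℝ) (τ : ℕ → ℝ≥0) (ω : Ω) (c : ℝ) (k : ℕ)
    (h : ∀ j ≤ k, |D (τ j) ω| ≤ c) : rmax D τ k ω ≤ c := by
  induction k with
  | zero => exact h 0 le_rfl
  | succ k ih => exact max_le (h _ le_rfl) (ih fun j hj => h j (by omega))

lemma rmax_nonneg (D : ℝ≥0 → Ω → ℝ) (τ : ℕ → ℝ≥0) (ω : Ω) (k : ℕ) : 0 ≤ rmax D τ k ω :=
  (abs_nonneg _).trans (le_rmax D τ ω k 0 (by omega))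

omit [IsProbabilityMeasure P] in
lemma rmax_sm (hM : Martingale D F P) {τ : ℕ → ℝ≥0} (hτ : Monotone τ) (k : ℕ) :
    StronglyMeasurable[F (τ k)] (rmax D τ k) := by
  induction k with
  | zero => exact (hM.stronglyMeasurable (τ 0)).norm
  | succ k ih =>
    exact @StronglyMeasurable.sup _ _ _ _ (F (τ (k + 1))) _ _ _
      ((hM.stronglyMeasurable (τ (k+1))).norm) (ih.mono (F.mono (hτ (Nat.le_succ k))))

omit [IsProbabilityMeasure P] in
lemma rmax_memLp (h2 : ∀ t, MemLp (D t) 2 P) (τ : ℕ → ℝ≥0) (k : ℕ) :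
    MemLp (rmax D τ k) 2 P := by
  induction k with
  | zero => exact (h2 (τ 0)).norm
  | succ k ih => exact MemLp.sup (h2 (τ (k+1))).norm ih

lemma step_ineq (x Y : ℝ) :
    2 * (max x Y) ^ 2 - 4 * (x * max x Y) ≤ 2 * Y ^ 2 - 4 * (x * Y) := by
  rcases le_total x Y with h | h
  · rw [max_eq_right h]
  · rw [max_eq_left h]
    nlinarith [sq_nonneg (x - Y)]

omit [IsProbabilityMeasure P] in
lemma mul_int {f g : Ω → ℝ} (hf : MemLp f 2 P) (hg : MemLp g 2 P) :
    Integrable (fun ω => f ω * g ω) P := hf.integrable_mul hg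

lemma sgn_int (hM : Martingale D F P) (h2 : ∀ t, MemLp (D t) 2 P) {τ : ℕ → ℝ≥0}
    (hτ : Monotone τ) (k : ℕ) :
    ∫ ω, |D (τ k) ω| * rmax D τ k ω ∂P ≤ ∫ ω, |D (τ (k + 1)) ω| * rmax D τ k ω ∂P := by
  set G : Ω → ℝ := fun ω => (if 0 ≤ D (τ k) ω then (1 : ℝ) else -1) * rmax D τ k ω with hG
  have hsgn : StronglyMeasurable[F (τ k)] (fun ω => if 0 ≤ D (τ k) ω then (1 : ℝ) else -1) := by
    refine StronglyMeasurable.ite ?_ stronglyMeasurable_const stronglyMeasurable_const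
    exact measurableSet_le measurable_const (hM.stronglyMeasurable (τ k)).measurable
  have hGm : StronglyMeasurable[F (τ k)] G := hsgn.mul (rmax_sm hM hτ k)
  have hGL : MemLp G 2 P := by
    refine MemLp.mono (rmax_memLp h2 τ k) (hGm.mono (F.le _)).aestronglyMeasurable ?_
    refine Eventually.of_forall fun ω => ?_
    simp only [hG, norm_mul]
    split_ifs <;> simp
  have key := integral_mul_mart hM (hτ (Nat.le_succ k)) hGm (hGL.integrable_mul (h2 _))
  calc ∫ ω, |D (τ k) ω| * rmax D τ k ω ∂P = ∫ ω, G ω * D (τ k) ω ∂P := by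
        refine integral_congr_ae (Eventually.of_forall fun ω => ?_)
        simp only [hG]
        split_ifs with h
        · rw [abs_of_nonneg h]; ring
        · rw [abs_of_neg (not_le.1 h)]; ring
    _ = ∫ ω, G ω * D (τ (k + 1)) ω ∂P := key.symm
    _ ≤ _ := by
        refine integral_mono (mul_int hGL (h2 _)) (mul_int (h2 _).norm (rmax_memLp h2 τ k)) ?_
        intro ω
        simp only [hG]
        have h0 := rmax_nonneg D τ ω k
        split_ifs with h
        · nlinarith [le_abs_self (D (τ (k+1)) ω)]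
        · nlinarith [neg_le_abs (D (τ (k+1)) ω)]

lemma main_ineq (hM : Martingale D F P) (h2 : ∀ t, MemLp (D t) 2 P) {τ : ℕ → ℝ≥0}
    (hτ : Monotone τ) (k : ℕ) :
    ∫ ω, (2 * rmax D τ k ω ^ 2 - 4 * (|D (τ k) ω| * rmax D τ k ω)) ∂P ≤ 0 := by
  have hI : ∀ i j, Integrable (fun ω => |D (τ i) ω| * rmax D τ j ω) P := fun i j =>
    mul_int (h2 _).norm (rmax_memLp h2 τ j)
  have hS : ∀ j, Integrable (fun ω => rmax D τ j ω ^ 2) P := fun j =>
    (rmax_memLp h2 τ j).integrable_sq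
  induction k with
  | zero =>
    refine integral_nonpos fun ω => ?_
    simp only [rmax, Pi.zero_apply]
    nlinarith [sq_nonneg (|D (τ 0) ω|)]
  | succ k ih =>
    calc ∫ ω, (2 * rmax D τ (k+1) ω ^ 2 - 4 * (|D (τ (k+1)) ω| * rmax D τ (k+1) ω)) ∂P
        ≤ ∫ ω, (2 * rmax D τ k ω ^ 2 - 4 * (|D (τ (k+1)) ω| * rmax D τ k ω)) ∂P := by
          refine integral_mono (((hS _).const_mul 2).sub ((hI _ _).const_mul 4))
            (((hS _).const_mul 2).sub ((hI _ _).const_mul 4)) fun ω => ?_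
          exact step_ineq _ _
      _ = 2 * ∫ ω, rmax D τ k ω ^ 2 ∂P - 4 * ∫ ω, (|D (τ (k+1)) ω| * rmax D τ k ω) ∂P := by
          rw [integral_sub ((hS _).const_mul 2) ((hI _ _).const_mul 4), integral_const_mul,
            integral_const_mul]
      _ ≤ 2 * ∫ ω, rmax D τ k ω ^ 2 ∂P - 4 * ∫ ω, (|D (τ k) ω| * rmax D τ k ω) ∂P := by
          have := sgn_int hM h2 hτ k
          linarith
      _ = ∫ ω, (2 * rmax D τ k ω ^ 2 - 4 * (|D (τ k) ω| * rmax D τ k ω)) ∂P := by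
          rw [integral_sub ((hS _).const_mul 2) ((hI _ _).const_mul 4), integral_const_mul,
            integral_const_mul]
      _ ≤ 0 := ih

lemma doob_disc (hM : Martingale D F P) (h2 : ∀ t, MemLp (D t) 2 P) {τ : ℕ → ℝ≥0}
    (hτ : Monotone τ) (k : ℕ) :
    ∫ ω, rmax D τ k ω ^ 2 ∂P ≤ 4 * ∫ ω, D (τ k) ω ^ 2 ∂P := by
  have h := main_ineq hM h2 hτ k
  have hI : Integrable (fun ω => |D (τ k) ω| * rmax D τ k ω) P :=
    mul_int (h2 _).norm (rmax_memLp h2 τ k)
  have hS : Integrable (fun ω => rmax D τ k ω ^ 2) P := (rmax_memLp h2 τ k).integrable_sq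
  have hD : Integrable (fun ω => D (τ k) ω ^ 2) P := (h2 _).integrable_sq
  have h3 : ∫ ω, (rmax D τ k ω ^ 2 - 4 * D (τ k) ω ^ 2) ∂P ≤
      ∫ ω, (2 * rmax D τ k ω ^ 2 - 4 * (|D (τ k) ω| * rmax D τ k ω)) ∂P := by
    refine integral_mono (hS.sub (hD.const_mul 4)) ((hS.const_mul 2).sub (hI.const_mul 4))
      fun ω => ?_
    simp only
    nlinarith [sq_nonneg (rmax D τ k ω - 2 * |D (τ k) ω|), sq_abs (D (τ k) ω)]
  have h4 : ∫ ω, (rmax D τ k ω ^ 2 - 4 * D (τ k) ω ^ 2) ∂P =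
      ∫ ω, rmax D τ k ω ^ 2 ∂P - 4 * ∫ ω, D (τ k) ω ^ 2 ∂P := by
    rw [integral_sub hS (hD.const_mul 4), integral_const_mul]
  linarith

/-- dyadic grid of `[0, T]` -/
def dy (T : ℝ≥0) (n : ℕ) (k : ℕ) : ℝ≥0 := T * (k / 2 ^ n)

lemma dy_mono (T : ℝ≥0) (n : ℕ) : Monotone (dy T n) := by
  intro a b h
  unfold dy
  gcongr

lemma dy_end (T : ℝ≥0) (n : ℕ) : dy T n (2 ^ n) = T := by
  unfold dy
  push_cast
  rw [div_self (by positivity), mul_one]

lemma dy_succ (T : ℝ≥0) (n k : ℕ) : dy T (n + 1) (2 * k) = dy T n k := by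
  unfold dy
  push_cast
  rw [pow_succ, mul_comm (2 ^ n : ℝ≥0) 2, mul_div_mul_left _ _ (by norm_num)]

lemma rmax_dy_mono (T : ℝ≥0) (ω : Ω) :
    Monotone fun n => rmax D (dy T n) (2 ^ n) ω := by
  refine monotone_nat_of_le_succ fun n => ?_
  refine rmax_le _ _ _ _ _ fun j hj => ?_
  rw [← dy_succ]
  refine le_rmax _ _ _ _ _ ?_
  rw [pow_succ]; omega

theorem main : S_DOOB := by
  intro Ω mΩ P _ F D hc h2 hM T
  set R : ℕ → Ω → ℝ≥0∞ := fun n ω => ENNReal.ofReal (rmax D (dy T n) (2 ^ n) ω ^ 2) with hR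
  have hRm : ∀ n, Measurable (R n) := fun n =>
    (((rmax_sm hM (dy_mono T n) (2 ^ n)).mono (F.le _)).measurable.pow_const 2).ennreal_ofReal
  have hRmono : Monotone R := by
    intro a b hab ω
    refine ENNReal.ofReal_le_ofReal ?_
    exact pow_le_pow_left₀ (rmax_nonneg _ _ _ _) (rmax_dy_mono T ω hab) 2
  have hint : ∀ n, ∫⁻ ω, R n ω ∂P ≤ ENNReal.ofReal (4 * ∫ ω, D T ω ^ 2 ∂P) := by
    intro n
    have h := doob_disc hM h2 (dy_mono T n) (2 ^ n)
    rw [dy_end] at h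
    rw [hR]
    simp only
    rw [← ofReal_integral_eq_lintegral_ofReal ((rmax_memLp h2 _ _).integrable_sq)
      (Eventually.of_forall fun ω => sq_nonneg _)]
    exact ENNReal.ofReal_le_ofReal h
  set S2 : Ω → ℝ≥0∞ := fun ω => ⨆ n, R n ω with hS2
  have hS2m : Measurable S2 := Measurable.iSup hRm
  have hS2i : ∫⁻ ω, S2 ω ∂P ≤ ENNReal.ofReal (4 * ∫ ω, D T ω ^ 2 ∂P) := by
    rw [hS2, lintegral_iSup hRm hRmono]
    exact iSup_le hint
  have hfin : ∀ᵐ ω ∂P, S2 ω < ∞ :=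
    ae_lt_top hS2m (hS2i.trans_lt ENNReal.ofReal_lt_top).ne
  refine ⟨fun ω => Real.sqrt (S2 ω).toReal, ?_, ?_⟩
  · have hm : Measurable fun ω => Real.sqrt (S2 ω).toReal := hS2m.ennreal_toReal.sqrt
    rw [memLp_two_iff_integrable_sq hm.aestronglyMeasurable]
    have : (fun ω => Real.sqrt (S2 ω).toReal ^ 2) = fun ω => (S2 ω).toReal := by
      funext ω
      exact Real.sq_sqrt ENNReal.toReal_nonneg
    rw [this]
    exact integrable_toReal_of_lintegral_ne_top hS2m.aemeasurable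
      (hS2i.trans_lt ENNReal.ofReal_lt_top).ne
  · filter_upwards [hfin] with ω hω
    -- the bound at dyadic points
    have hdy : ∀ n, ∀ k ≤ 2 ^ n, |D (dy T n k) ω| ≤ Real.sqrt (S2 ω).toReal := by
      intro n k hk
      refine Real.le_sqrt_of_sq_le ?_
      have h1 : |D (dy T n k) ω| ^ 2 ≤ rmax D (dy T n) (2 ^ n) ω ^ 2 :=
        pow_le_pow_left₀ (abs_nonneg _) (le_rmax _ _ _ _ _ hk) 2
      have h3 : R n ω ≤ S2 ω := le_iSup (fun n => R n ω) n
      have h4 := ENNReal.toReal_mono hω.ne h3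
      rw [hR] at h4
      simp only at h4
      rw [ENNReal.toReal_ofReal (sq_nonneg _)] at h4
      exact h1.trans h4
    intro s hs
    -- approximate s by dyadic points
    rcases eq_or_ne T 0 with hT | hT
    · have : s = dy T 0 0 := by
        have : s = 0 := le_antisymm (hT ▸ hs) bot_le
        simp [dy, this]
      rw [this]
      exact hdy 0 0 (by norm_num)
    set kk : ℕ → ℕ := fun n => ⌊(s / T) * 2 ^ n⌋₊ with hkk
    have hsT : s / T ≤ 1 := div_le_one_of_le₀ hs bot_le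
    have hkk2 : ∀ n, kk n ≤ 2 ^ n := by
      intro n
      have : (s / T) * 2 ^ n ≤ ((2 ^ n : ℕ) : ℝ≥0) := by
        push_cast
        exact mul_le_of_le_one_left bot_le hsT
      exact Nat.floor_le_of_le this
    have hlim : Tendsto (fun n => dy T n (kk n)) atTop (𝓝 s) := by
      have h1 : Tendsto (fun n : ℕ => (kk n : ℝ≥0) / 2 ^ n) atTop (𝓝 (s / T)) := by
        have := (tendsto_nat_floor_mul_div_atTop (R := ℝ) (a := ((s / T : ℝ≥0) : ℝ))
          (NNReal.coe_nonneg _)).comp (tendsto_pow_atTop_atTop_of_one_lt (r := (2 : ℝ)) one_lt_two)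
        rw [← NNReal.tendsto_coe]
        refine this.congr fun n => ?_
        simp only [Function.comp, hkk]
        push_cast
        congr 2
      have h2 := h1.const_mul T
      rw [mul_div_cancel₀ _ hT] at h2
      exact h2
    have hcl := ((hc ω).tendsto s).comp hlim
    exact le_of_tendsto hcl.abs (Eventually.of_forall fun n => hdy n _ (hkk2 n))

end Pool.Agent.W250.HWDOOB
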